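import Mathlib
import Pool.Agent.V11180.ProdInter

/-!
# MP_57f2ab_co: every set of positive integers containing 1 is a product intersection set
-/

set_option autoImplicit false

namespace Pool.Agent.Results.MP_57f2ab_co.AllRealised

open Pool.Agent.V11180.ProdInter

universe u v

/-- For every infinite index set `Q`, the product intersection sets of families `(A_q)_{q ∈ Q}` with
`{A_q : q ∈ Q}` infinite of subsets of semigroups are exactly the sets of positive integers which
contain `1`. -/
theorem result (Q : Type u) [Infinite Q] (X : Set ℕ) :
    X ∈ HQ.{u, v} Q ↔ 1 ∈ X ∧ ∀ h ∈ X, 1 ≤ h :=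
  mem_HQ_iff Q X

end Pool.Agent.Results.MP_57f2ab_co.AllRealised
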